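import Mathlib

set_option autoImplicit false

/-!
# Sublevel sets of a polynomial on a dyadic grid
-/

namespace Pool.Agent.Helper53.MF

open Polynomial

/-- Iterated mean value theorem along `2 ^ j` separated points. -/
theorem poly_iter_mvt (j : ℕ) : ∀ (p : ℝ[X]) (η g : ℝ) (x : ℕ → ℝ), 0 < g →
    (∀ k, k < 2 ^ j → 0 ≤ x k ∧ x k ≤ 1) → (∀ k, k + 1 < 2 ^ j → x k + g ≤ x (k + 1)) →
    (∀ k, k < 2 ^ j → |p.eval (x k)| ≤ η) →
    ∃ ξ : ℝ, 0 ≤ ξ ∧ ξ ≤ 1 ∧ |(derivative^[j] p).eval ξ| ≤ (2 / g) ^ j * η := by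
  induction j with
  | zero =>
    intro p η g x hg h01 _ hη
    refine ⟨x 0, (h01 0 (by norm_num)).1, (h01 0 (by norm_num)).2, ?_⟩
    simpa using hη 0 (by norm_num)
  | succ j ih =>
    intro p η g x hg h01 hgap hη
    have hpow : 2 ^ (j + 1) = 2 * 2 ^ j := by ring
    have hex : ∀ k, ∃ y : ℝ, k < 2 ^ j → (x (2 * k) ≤ y ∧ y ≤ x (2 * k + 1) ∧
        |p.derivative.eval y| ≤ 2 * η / g) := by
      intro k
      by_cases hk : k < 2 ^ j
      · have hk1 : 2 * k + 1 < 2 ^ (j + 1) := by omega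
        have hlt : x (2 * k) < x (2 * k + 1) := by
          have := hgap (2 * k) hk1
          linarith
        obtain ⟨y, hy, hy'⟩ := exists_deriv_eq_slope (fun t => p.eval t) hlt
          (p.continuous.continuousOn) (p.differentiable.differentiableOn)
        refine ⟨y, fun _ => ⟨hy.1.le, hy.2.le, ?_⟩⟩
        rw [Polynomial.deriv] at hy'
        rw [hy', abs_div]
        have hd : g ≤ x (2 * k + 1) - x (2 * k) := by
          have := hgap (2 * k) hk1
          linarith
        have hd' : |x (2 * k + 1) - x (2 * k)| = x (2 * k + 1) - x (2 * k) :=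
          abs_of_nonneg (by linarith)
        rw [hd']
        have h1 := hη (2 * k) (by omega)
        have h2 := hη (2 * k + 1) hk1
        have hη0 : 0 ≤ η := (abs_nonneg _).trans h1
        have h3 : |p.eval (x (2 * k + 1)) - p.eval (x (2 * k))| ≤ 2 * η := by
          refine (abs_sub _ _).trans ?_
          linarith
        exact div_le_div₀ (by linarith) h3 hg hd
      · exact ⟨0, fun h => absurd h hk⟩
    choose y hy using hex
    obtain ⟨ξ, h0, h1, h2⟩ := ih p.derivative (2 * η / g) g y hg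
      (fun k hk => ⟨(h01 (2 * k) (by omega)).1.trans (hy k hk).1,
        (hy k hk).2.1.trans (h01 (2 * k + 1) (by omega)).2⟩)
      (fun k hk => by
        have a1 := (hy k (by omega)).2.1
        have a2 := (hy (k + 1) hk).1
        have a3 := hgap (2 * k + 1) (by omega)
        have e : 2 * k + 1 + 1 = 2 * (k + 1) := by ring
        rw [e] at a3
        linarith)
      (fun k hk => (hy k hk).2.2)
    refine ⟨ξ, h0, h1, ?_⟩
    rw [Function.iterate_succ_apply]
    refine h2.trans (le_of_eq ?_)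
    rw [pow_succ]
    field_simp

/-- The lower bound for the `j`-th derivative. -/
theorem poly_deriv_lower (n : ℕ) (A : ℝ) (m j : ℕ) (hm : 8 * ((n : ℝ) + 1) ^ (n + 1) * |A| ≤ 2 ^ m)
    (hjn : j ≤ n) (b : ℕ → ℝ) (hb : 1 / 4 ≤ |b j|)
    (hb' : ∀ i, j < i → i ≤ n → |b i| ≤ A / 2 ^ m) (ξ : ℝ) (h0 : 0 ≤ ξ) (h1 : ξ ≤ 1) :
    1 / 8 ≤ |(derivative^[j] (∑ i ∈ Finset.range (n + 1), C (b i) * X ^ i)).eval ξ| := by
  have he : (derivative^[j] (∑ i ∈ Finset.range (n + 1), C (b i) * X ^ i)).eval ξ =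
      ∑ i ∈ Finset.range (n + 1), b i * ((i.descFactorial j : ℝ) * ξ ^ (i - j)) := by
    rw [Polynomial.iterate_derivative_sum, Polynomial.eval_finsetSum]
    refine Finset.sum_congr rfl fun i _ => ?_
    rw [Polynomial.iterate_derivative_C_mul, Polynomial.iterate_derivative_X_pow_eq_smul]
    simp only [eval_mul, eval_C, eval_smul, eval_pow, eval_X, smul_eq_mul, nsmul_eq_mul,
      eval_natCast]
  rw [he, ← Finset.add_sum_erase _ _ (Finset.mem_range.2 (Nat.lt_succ_of_le hjn))]
  have hs : |∑ i ∈ (Finset.range (n + 1)).erase j, b i * ((i.descFactorial j : ℝ) * ξ ^ (i - j))|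
      ≤ 1 / 8 := by
    refine (Finset.abs_sum_le_sum_abs _ _).trans ?_
    have hterm : ∀ i ∈ (Finset.range (n + 1)).erase j,
        |b i * ((i.descFactorial j : ℝ) * ξ ^ (i - j))| ≤ |A| / 2 ^ m * ((n : ℝ) + 1) ^ n := by
      intro i hi
      have hin : i ≤ n := Nat.lt_succ_iff.1 (Finset.mem_range.1 (Finset.mem_of_mem_erase hi))
      have hne : i ≠ j := Finset.ne_of_mem_erase hi
      rcases lt_or_gt_of_ne hne with h | h
      · rw [Nat.descFactorial_of_lt h]
        simp only [Nat.cast_zero, zero_mul, mul_zero, abs_zero]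
        positivity
      · rw [abs_mul, abs_mul]
        have e1 : |b i| ≤ |A| / 2 ^ m := (hb' i h hin).trans
          (div_le_div_of_nonneg_right (le_abs_self A) (by positivity))
        have e2 : |((i.descFactorial j : ℕ) : ℝ)| ≤ ((n : ℝ) + 1) ^ n := by
          rw [abs_of_nonneg (Nat.cast_nonneg _)]
          have : (i.descFactorial j : ℝ) ≤ (i : ℝ) ^ j := by
            exact_mod_cast Nat.descFactorial_le_pow i j
          refine this.trans ?_
          have hi' : (i : ℝ) ≤ (n : ℝ) + 1 := by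
            have : (i : ℝ) ≤ n := by exact_mod_cast hin
            linarith
          calc (i : ℝ) ^ j ≤ ((n : ℝ) + 1) ^ j := pow_le_pow_left₀ (Nat.cast_nonneg _) hi' _
            _ ≤ ((n : ℝ) + 1) ^ n := pow_le_pow_right₀ (by
                have : (0 : ℝ) ≤ n := Nat.cast_nonneg _
                linarith) hjn
        have e3 : |ξ ^ (i - j)| ≤ 1 := by
          rw [abs_of_nonneg (pow_nonneg h0 _)]
          exact pow_le_one₀ h0 h1
        calc |b i| * (|((i.descFactorial j : ℕ) : ℝ)| * |ξ ^ (i - j)|)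
            ≤ (|A| / 2 ^ m) * (((n : ℝ) + 1) ^ n * 1) := by
              apply mul_le_mul e1 _ (by positivity) (by positivity)
              exact mul_le_mul e2 e3 (by positivity) (by positivity)
          _ = _ := by ring
    refine (Finset.sum_le_card_nsmul _ _ _ hterm).trans ?_
    rw [nsmul_eq_mul]
    have hcard : (((Finset.range (n + 1)).erase j).card : ℝ) ≤ (n : ℝ) + 1 := by
      have := Finset.card_erase_le (s := Finset.range (n + 1)) (a := j)
      rw [Finset.card_range] at this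
      exact_mod_cast this
    have h2m : (0 : ℝ) < 2 ^ m := by positivity
    calc (((Finset.range (n + 1)).erase j).card : ℝ) * (|A| / 2 ^ m * ((n : ℝ) + 1) ^ n)
        ≤ ((n : ℝ) + 1) * (|A| / 2 ^ m * ((n : ℝ) + 1) ^ n) :=
          mul_le_mul_of_nonneg_right hcard (by positivity)
      _ = ((n : ℝ) + 1) ^ (n + 1) * |A| / 2 ^ m := by ring
      _ ≤ 1 / 8 := by
          rw [div_le_iff₀ h2m]
          linarith
  have hj : 1 / 4 ≤ |b j * ((j.descFactorial j : ℝ) * ξ ^ (j - j))| := by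
    rw [Nat.sub_self, pow_zero, mul_one, abs_mul, Nat.descFactorial_self]
    have hf : (1 : ℝ) ≤ |((j.factorial : ℕ) : ℝ)| := by
      rw [abs_of_nonneg (Nat.cast_nonneg _)]
      exact_mod_cast Nat.one_le_iff_ne_zero.2 (Nat.factorial_ne_zero j)
    calc (1 : ℝ) / 4 ≤ |b j| := hb
      _ = |b j| * 1 := (mul_one _).symm
      _ ≤ |b j| * |((j.factorial : ℕ) : ℝ)| := mul_le_mul_of_nonneg_left hf (abs_nonneg _)
  have := abs_sub_abs_le_abs_sub (b j * ((j.descFactorial j : ℝ) * ξ ^ (j - j)))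
    (-(∑ i ∈ (Finset.range (n + 1)).erase j, b i * ((i.descFactorial j : ℝ) * ξ ^ (i - j))))
  rw [abs_neg, sub_neg_eq_add] at this
  linarith

/-- Counting: the number of grid points where the polynomial is small. -/
theorem poly_count (n : ℕ) (A : ℝ) (m j : ℕ)
    (hm : 8 * ((n : ℝ) + 1) ^ (n + 1) * |A| ≤ 2 ^ m)
    (hj1 : 1 ≤ j) (hjn : j ≤ n) (b : ℕ → ℝ) (hb : 1 / 4 ≤ |b j|)
    (hb' : ∀ i, j < i → i ≤ n → |b i| ≤ A / 2 ^ m) (u : ℕ) (S : Finset ℕ)
    (hS : ∀ r ∈ S, r < 2 ^ m ∧
      2 ^ (j * m) * |∑ i ∈ Finset.range (n + 1), b i * ((r : ℝ) / 2 ^ m) ^ i| ≤ 2 ^ (j * u)) :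
    (S.card : ℝ) ≤ 2 ^ j * (17 * 2 ^ u) := by
  classical
  set N : ℝ := 2 ^ m with hN
  have hN0 : 0 < N := by positivity
  set K : ℕ := (S.card - 1) / 2 ^ j with hK
  have hcardK : S.card ≤ 2 ^ j * (K + 1) := by
    have h1 : S.card - 1 < 2 ^ j * (K + 1) := by
      rw [hK, mul_comm]
      have := Nat.lt_succ_self ((S.card - 1) / 2 ^ j)
      exact (Nat.div_lt_iff_lt_mul (by positivity)).1 this
    omega
  have hcardK' : (S.card : ℝ) ≤ 2 ^ j * ((K : ℝ) + 1) := by exact_mod_cast hcardK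
  have hKb : (K : ℝ) ≤ 16 * 2 ^ u := by
    rcases Nat.eq_zero_or_pos K with h0 | hpos
    · rw [h0]; simp only [Nat.cast_zero]; positivity
    · -- separated points
      have hKS : 2 ^ j * K ≤ S.card - 1 := by
        rw [hK, mul_comm]; exact Nat.div_mul_le_self _ _
      have hSpos : 0 < S.card := by
        by_contra h
        have : S.card = 0 := by omega
        rw [this] at hKS
        have : 0 < 2 ^ j * K := by positivity
        omega
      set e := S.orderEmbOfFin (rfl : S.card = S.card) with he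
      -- index `k * K` for `k < 2 ^ j`
      have hidx : ∀ k, k < 2 ^ j → k * K < S.card := by
        intro k hk
        have : k * K ≤ 2 ^ j * K := Nat.mul_le_mul_right _ hk.le
        omega
      let s : ℕ → ℕ := fun k => if h : k * K < S.card then e ⟨k * K, h⟩ else 0
      have hs : ∀ k, k < 2 ^ j → s k ∈ S := by
        intro k hk
        simp only [s, dif_pos (hidx k hk)]
        exact Finset.orderEmbOfFin_mem _ _ _
      have hstep : ∀ (a c : ℕ) (ha : a < S.card) (hc : a + c < S.card),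
          e ⟨a, ha⟩ + c ≤ e ⟨a + c, hc⟩ := by
        intro a c
        induction c with
        | zero => intro ha hc; simp
        | succ c ihc =>
          intro ha hc
          have h1 := ihc ha (by omega)
          have h2 : e ⟨a + c, by omega⟩ < e ⟨a + (c + 1), hc⟩ := by
            apply e.strictMono
            show a + c < a + (c + 1)
            omega
          omega
      have hsgap : ∀ k, k + 1 < 2 ^ j → s k + K ≤ s (k + 1) := by
        intro k hk
        have h1 := hidx k (by omega)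
        have h2 := hidx (k + 1) hk
        simp only [s, dif_pos h1, dif_pos h2]
        have e2 : (k + 1) * K = k * K + K := by ring
        have h2' : k * K + K < S.card := by rw [← e2]; exact h2
        have := hstep (k * K) K h1 h2'
        have e3 : (⟨(k + 1) * K, h2⟩ : Fin S.card) = ⟨k * K + K, h2'⟩ := by
          ext; exact e2
        rw [e3]
        exact this
      obtain ⟨ξ, hξ0, hξ1, hξ⟩ := poly_iter_mvt j
        (∑ i ∈ Finset.range (n + 1), C (b i) * X ^ i) (2 ^ (j * u) / N ^ j) (K / N)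
        (fun k => (s k : ℝ) / N) (by positivity)
        (fun k hk => by
          have := (hS _ (hs k hk)).1
          refine ⟨by positivity, ?_⟩
          rw [div_le_one hN0, hN]
          exact_mod_cast this.le)
        (fun k hk => by
          have := hsgap k hk
          have h' : (s k : ℝ) + K ≤ s (k + 1) := by exact_mod_cast this
          rw [← add_div]
          exact div_le_div_of_nonneg_right h' hN0.le)
        (fun k hk => by
          have := (hS _ (hs k hk)).2
          have hev : (∑ i ∈ Finset.range (n + 1), C (b i) * X ^ i : ℝ[X]).eval ((s k : ℝ) / N) =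
              ∑ i ∈ Finset.range (n + 1), b i * ((s k : ℝ) / N) ^ i := by
            simp [Polynomial.eval_finsetSum]
          rw [hev, le_div_iff₀ (by positivity), mul_comm]
          have hNj : N ^ j = 2 ^ (j * m) := by rw [hN, ← pow_mul, mul_comm]
          rw [hNj]
          exact this)
      have hlow := poly_deriv_lower n A m j hm hjn b hb hb' ξ hξ0 hξ1
      have h3 : (1 : ℝ) / 8 ≤ (2 / (K / N)) ^ j * (2 ^ (j * u) / N ^ j) := hlow.trans hξ
      have hK0 : (0 : ℝ) < K := by exact_mod_cast hpos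
      have h4 : (2 / (K / N)) ^ j * (2 ^ (j * u) / N ^ j) = (2 * 2 ^ u / K) ^ j := by
        rw [mul_comm j u, pow_mul, ← div_pow, ← mul_pow]
        congr 1
        field_simp
      rw [h4] at h3
      by_contra hcon
      push Not at hcon
      have h5 : 2 * 2 ^ u / (K : ℝ) < 1 / 8 := by
        rw [div_lt_div_iff₀ hK0 (by norm_num)]
        linarith
      have h6 : (2 * 2 ^ u / (K : ℝ)) ^ j ≤ (2 * 2 ^ u / (K : ℝ)) ^ 1 :=
        pow_le_pow_of_le_one (by positivity) (by linarith) hj1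
      rw [pow_one] at h6
      linarith
  refine hcardK'.trans ?_
  have h1u : (1 : ℝ) ≤ 2 ^ u := one_le_pow₀ (by norm_num)
  have : (K : ℝ) + 1 ≤ 17 * 2 ^ u := by linarith
  exact mul_le_mul_of_nonneg_left this (by positivity)

/-- pointwise dyadic bound -/
theorem dyadic_inv_le (m : ℕ) (c : ℝ) (hc : 1 ≤ c) :
    c⁻¹ ≤ (∑ u ∈ Finset.range (m + 1), if c ≤ 2 ^ u then 2 * (2 ^ u : ℝ)⁻¹ else 0) +
      (2 ^ m : ℝ)⁻¹ := by
  classical
  by_cases h : c ≤ 2 ^ m
  · have hex : ∃ u : ℕ, c ≤ 2 ^ u := ⟨m, h⟩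
    set u := Nat.find hex with hu
    have hu1 : c ≤ 2 ^ u := Nat.find_spec hex
    have hum : u ≤ m := Nat.find_min' hex h
    have hle : c⁻¹ ≤ 2 * (2 ^ u : ℝ)⁻¹ := by
      rcases Nat.eq_zero_or_pos u with h0 | hpos
      · rw [h0, pow_zero, inv_one]
        have := inv_le_one_of_one_le₀ hc
        linarith
      · have hn : ¬ c ≤ 2 ^ (u - 1) := Nat.find_min hex (by omega)
        push Not at hn
        have e : (2 : ℝ) ^ u = 2 * 2 ^ (u - 1) := by
          rw [← pow_succ']; congr 1; omega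
        rw [e, mul_inv, ← mul_assoc, mul_inv_cancel₀ (by norm_num), one_mul]
        exact inv_anti₀ (by positivity) hn.le
    refine hle.trans ?_
    have hmem : u ∈ Finset.range (m + 1) := Finset.mem_range.2 (by omega)
    have := Finset.single_le_sum (f := fun u => if c ≤ 2 ^ u then 2 * (2 ^ u : ℝ)⁻¹ else 0)
      (fun i _ => by
        show (0 : ℝ) ≤ if c ≤ 2 ^ i then 2 * (2 ^ i : ℝ)⁻¹ else 0
        split_ifs
        · positivity
        · exact le_refl _) hmem
    simp only [if_pos hu1] at this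
    have h0 : (0 : ℝ) ≤ (2 ^ m : ℝ)⁻¹ := by positivity
    linarith
  · push Not at h
    have h1 : c⁻¹ ≤ (2 ^ m : ℝ)⁻¹ := inv_anti₀ (by positivity) h.le
    have h2 : (0 : ℝ) ≤ ∑ u ∈ Finset.range (m + 1), if c ≤ 2 ^ u then 2 * (2 ^ u : ℝ)⁻¹ else 0 := by
      apply Finset.sum_nonneg
      intro i _
      split_ifs
      · positivity
      · exact le_refl _
    linarith

theorem poly_grid (n : ℕ) (A : ℝ) : ∃ C : ℝ, 1 ≤ C ∧ ∃ m₀ : ℕ, ∀ m : ℕ, m₀ ≤ m →
    ∀ j : ℕ, 1 ≤ j → j ≤ n → ∀ b : ℕ → ℝ, 1 / 4 ≤ |b j| →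
    (∀ i, j < i → i ≤ n → |b i| ≤ A / 2 ^ m) →
    ∑ r ∈ Finset.range (2 ^ m),
      ((max 1 (2 ^ (j * m) * |∑ i ∈ Finset.range (n + 1), b i * ((r : ℝ) / 2 ^ m) ^ i|))⁻¹)
        ^ (1 / (j : ℝ)) ≤ C * (m + 1) := by
  classical
  obtain ⟨m₀, hm₀⟩ : ∃ m₀ : ℕ, 8 * ((n : ℝ) + 1) ^ (n + 1) * |A| ≤ 2 ^ m₀ := by
    obtain ⟨k, hk⟩ := pow_unbounded_of_one_lt (8 * ((n : ℝ) + 1) ^ (n + 1) * |A|)
      (by norm_num : (1 : ℝ) < 2)
    exact ⟨k, hk.le⟩
  refine ⟨34 * 2 ^ n + 1, ?_, m₀, ?_⟩
  · have : (0 : ℝ) < 34 * 2 ^ n := by positivity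
    linarith
  intro m hm j hj1 hjn b hb hb'
  have hmm : 8 * ((n : ℝ) + 1) ^ (n + 1) * |A| ≤ 2 ^ m :=
    hm₀.trans (pow_le_pow_right₀ (by norm_num) hm)
  set a : ℕ → ℝ := fun r =>
    2 ^ (j * m) * |∑ i ∈ Finset.range (n + 1), b i * ((r : ℝ) / 2 ^ m) ^ i| with ha
  have hj0 : (0 : ℝ) < j := by exact_mod_cast hj1
  set c : ℕ → ℝ := fun r => (max 1 (a r)) ^ (1 / (j : ℝ)) with hc
  have hc1 : ∀ r, 1 ≤ c r := fun r => Real.one_le_rpow (le_max_left _ _) (by positivity)
  have hterm : ∀ r, ((max 1 (a r))⁻¹) ^ (1 / (j : ℝ)) = (c r)⁻¹ := by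
    intro r
    exact Real.inv_rpow (by positivity) _
  have hcu : ∀ r u, c r ≤ 2 ^ u → a r ≤ 2 ^ (j * u) := by
    intro r u h
    have h1 : max 1 (a r) = (c r) ^ j := by
      simp only [hc]
      rw [← Real.rpow_natCast, ← Real.rpow_mul (by positivity), one_div,
        inv_mul_cancel₀ hj0.ne', Real.rpow_one]
    have h2 : (c r) ^ j ≤ (2 ^ u) ^ j := pow_le_pow_left₀ (by linarith [hc1 r]) h _
    rw [← pow_mul, mul_comm u j] at h2
    exact (le_max_right _ _).trans (h1.le.trans h2)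
  calc ∑ r ∈ Finset.range (2 ^ m), ((max 1 (a r))⁻¹) ^ (1 / (j : ℝ))
      = ∑ r ∈ Finset.range (2 ^ m), (c r)⁻¹ := Finset.sum_congr rfl fun r _ => hterm r
    _ ≤ ∑ r ∈ Finset.range (2 ^ m),
          ((∑ u ∈ Finset.range (m + 1), if c r ≤ 2 ^ u then 2 * (2 ^ u : ℝ)⁻¹ else 0) +
            (2 ^ m : ℝ)⁻¹) := Finset.sum_le_sum fun r _ => dyadic_inv_le m (c r) (hc1 r)
    _ = (∑ u ∈ Finset.range (m + 1), ∑ r ∈ Finset.range (2 ^ m),
          if c r ≤ 2 ^ u then 2 * (2 ^ u : ℝ)⁻¹ else 0) + 1 := by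
        rw [Finset.sum_add_distrib, Finset.sum_comm]
        congr 1
        rw [Finset.sum_const, Finset.card_range, nsmul_eq_mul]
        push_cast
        exact mul_inv_cancel₀ (by positivity)
    _ ≤ (∑ u ∈ Finset.range (m + 1), (34 * 2 ^ n : ℝ)) + 1 := by
        gcongr with u _
        rw [← Finset.sum_filter, Finset.sum_const, nsmul_eq_mul]
        have hcount := poly_count n A m j hmm hj1 hjn b hb hb' u
          ((Finset.range (2 ^ m)).filter fun r => c r ≤ 2 ^ u) (by
            intro r hr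
            rw [Finset.mem_filter, Finset.mem_range] at hr
            exact ⟨hr.1, hcu r u hr.2⟩)
        have h2u : (0 : ℝ) < 2 ^ u := by positivity
        calc (((Finset.range (2 ^ m)).filter fun r => c r ≤ 2 ^ u).card : ℝ) * (2 * (2 ^ u : ℝ)⁻¹)
            ≤ (2 ^ j * (17 * 2 ^ u)) * (2 * (2 ^ u : ℝ)⁻¹) :=
              mul_le_mul_of_nonneg_right hcount (by positivity)
          _ = 34 * 2 ^ j := by field_simp; ring
          _ ≤ 34 * 2 ^ n := by
              have : (2 : ℝ) ^ j ≤ 2 ^ n := pow_le_pow_right₀ (by norm_num) hjn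
              linarith
    _ = (34 * 2 ^ n) * (m + 1) + 1 := by
        rw [Finset.sum_const, Finset.card_range, nsmul_eq_mul]
        push_cast
        ring
    _ ≤ (34 * 2 ^ n + 1) * (m + 1) := by
        have : (0 : ℝ) ≤ m := Nat.cast_nonneg _
        nlinarith

end Pool.Agent.Helper53.MF
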